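import Pool.Agent.Helper46.QB.Ring2

/-!
# Project QB, module L1: gluing of maps
-/

set_option autoImplicit false

namespace Pool.Agent.Helper33.QB

open Set

universe v

variable {Ω : Type} {I : Type v} {α : Ordinal.{0}}

/-- The gluing of the old map and of the new map (no forcing). -/
theorem glue_ce {q : Cnd Ω I} (hq : Basic α q) {Ys : Set Ω} (hYs : Ys ⊆ q.Y)
    (hc : ∀ K ∈ q.R, K ∩ Ys ∈ q.R) {h1 h2 : Ω → Ω}
    (hm1 : ∀ x ∈ Ys, h1 x ∈ Ys) (hi1 : InjOn h1 Ys)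
    (him1 : ∀ K ∈ q.R, K ⊆ Ys → ∃ K' ∈ q.R, h1 '' K = K' ∩ h1 '' Ys)
    (hp1 : ∀ K ∈ q.R, {x | x ∈ Ys ∧ h1 x ∈ K} ∈ q.R) (hc1 : Cl q.Y q.R (h1 '' Ys))
    {B : Set Ω} (hB : Cl q.Y q.R B) (hd : h1 '' Ys ∩ B = ∅)
    (h2' : Iso (q.Y \ Ys) (tr q.R (q.Y \ Ys)) B (tr q.R B) h2)
    {h' : Ω → Ω} (hh1 : ∀ x ∈ Ys, h' x = h1 x) (hh2 : ∀ x ∈ q.Y \ Ys, h' x = h2 x) :
    CE q.Y q.R h' ∧ h' '' q.Y = h1 '' Ys ∪ B := by
  have hg := hq.gr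
  have hbij := h2'.1
  have hB2 : ∀ x ∈ q.Y \ Ys, h2 x ∈ B := fun x hx => hbij.mapsTo hx
  have e1 : ∀ K : Set Ω, K ⊆ Ys → h' '' K = h1 '' K := fun K hK =>
    image_congr fun x hx => hh1 x (hK hx)
  have e2 : ∀ K : Set Ω, K ⊆ q.Y \ Ys → h' '' K = h2 '' K := fun K hK =>
    image_congr fun x hx => hh2 x (hK hx)
  have hY : q.Y = Ys ∪ (q.Y \ Ys) := (union_sdiff_cancel hYs).symm
  have himg : h' '' q.Y = h1 '' Ys ∪ B := by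
    conv_lhs => rw [hY]
    rw [image_union, e1 Ys subset_rfl, e2 _ subset_rfl, hbij.image_eq]
  refine ⟨⟨?_, ?_, ?_, ?_, ?_⟩, himg⟩
  · intro x hx
    by_cases h : x ∈ Ys
    · rw [hh1 x h]
      exact hYs (hm1 x h)
    · rw [hh2 x ⟨hx, h⟩]
      exact hB.1 (hB2 x ⟨hx, h⟩)
  · have hmix : ∀ x ∈ Ys, ∀ y ∈ q.Y \ Ys, h1 x ≠ h2 y := by
      intro x hx y hy he
      have : h1 x ∈ h1 '' Ys ∩ B := ⟨⟨x, hx, rfl⟩, he ▸ hB2 y hy⟩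
      rw [hd] at this
      exact this
    intro x hx y hy hxy
    by_cases h : x ∈ Ys <;> by_cases h' : y ∈ Ys
    · rw [hh1 x h, hh1 y h'] at hxy
      exact hi1 h h' hxy
    · rw [hh1 x h, hh2 y ⟨hy, h'⟩] at hxy
      exact (hmix x h y ⟨hy, h'⟩ hxy).elim
    · rw [hh2 x ⟨hx, h⟩, hh1 y h'] at hxy
      exact (hmix y h' x ⟨hx, h⟩ hxy.symm).elim
    · rw [hh2 x ⟨hx, h⟩, hh2 y ⟨hy, h'⟩] at hxy
      exact hbij.injOn ⟨hx, h⟩ ⟨hy, h'⟩ hxy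
  · intro K hK
    obtain ⟨K1', hK1', h3⟩ := him1 (K ∩ Ys) (hc K hK) inter_subset_right
    have h4 : K \ Ys ⊆ q.Y \ Ys := sdiff_subset_sdiff_left (hg.sub K hK)
    have h5 : h2 '' (K \ Ys) ∈ tr q.R B := by
      refine (h2'.2 _ h4).1 ⟨K, hK, ?_⟩
      ext x
      simp only [mem_sdiff, mem_inter_iff]
      exact ⟨fun h => ⟨h.1, hg.sub K hK h.1, h.2⟩, fun h => ⟨h.1, h.2.2⟩⟩
    obtain ⟨K2', hK2', h6⟩ := h5
    obtain ⟨K', hK', h7, h8⟩ := hg.glue hc1 hB hd hK1' hK2'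
    refine ⟨K', hK', ?_⟩
    have h9 : K = (K ∩ Ys) ∪ (K \ Ys) := (inter_union_sdiff K Ys).symm
    conv_lhs => rw [h9]
    rw [image_union, e1 _ inter_subset_right, e2 _ h4, h3, h6, ← h7, ← h8, himg,
      inter_union_distrib_left]
  · intro K hK
    have h3 : {x | x ∈ q.Y ∧ h' x ∈ K} =
        {x | x ∈ Ys ∧ h1 x ∈ K} ∪ {x | x ∈ q.Y \ Ys ∧ h2 x ∈ K} := by
      ext x
      simp only [mem_ofPred_eq, mem_union]
      constructor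
      · rintro ⟨hx, hxK⟩
        by_cases h : x ∈ Ys
        · rw [hh1 x h] at hxK
          exact Or.inl ⟨h, hxK⟩
        · rw [hh2 x ⟨hx, h⟩] at hxK
          exact Or.inr ⟨⟨hx, h⟩, hxK⟩
      · rintro (⟨h, hxK⟩ | ⟨h, hxK⟩)
        · rw [← hh1 x h] at hxK
          exact ⟨hYs h, hxK⟩
        · rw [← hh2 x h] at hxK
          exact ⟨h.1, hxK⟩
    rw [h3]
    refine hg.un _ (hp1 K hK) _ ?_
    have h4 : {x | x ∈ q.Y \ Ys ∧ h2 x ∈ K} ∈ tr q.R (q.Y \ Ys) := by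
      refine (h2'.2 _ fun x hx => hx.1).2 ⟨K, hK, ?_⟩
      ext y
      constructor
      · rintro ⟨x, ⟨hx, hxK⟩, rfl⟩
        exact ⟨hxK, hB2 x hx⟩
      · rintro ⟨hyK, hyB⟩
        obtain ⟨x, hx, rfl⟩ := hbij.surjOn hyB
        exact ⟨x, ⟨hx, hyK⟩, rfl⟩
    obtain ⟨K'', hK'', h5⟩ := h4
    rw [h5]
    have h6 : K'' ∩ (q.Y \ Ys) = K'' \ (K'' ∩ Ys) := by
      ext x
      simp only [mem_sdiff, mem_inter_iff, not_and]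
      exact ⟨fun h => ⟨h.1, fun _ => h.2.2⟩, fun h => ⟨h.1, hg.sub K'' hK'' h.1, h.2 h.1⟩⟩
    rw [h6]
    exact hg.df _ hK'' _ (hc _ hK'')
  · rw [himg]
    exact Cl.union hg hc1 hB

end Pool.Agent.Helper33.QB
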