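import Pool.Agent.Helper64.QB.NmDefs
import Pool.Agent.Helper84.QB.Acts
import Pool.Agent.Helper61.QB.Order
import Pool.Agent.Helper55.QB.Res
import Pool.Agent.Helper90.QB.Bel1
import Pool.Agent.Helper54.QB.LimSemi2

/-!
# Project QB, module N1: the extension lemma implies the limit lemma
-/

set_option autoImplicit false

namespace Pool.Agent.Helper33.QB

open Set

universe v

variable {Ω : Type} {I : Type v} {α : Ordinal.{0}}

section

variable [LinearOrder I] [WellFoundedLT I] {b : I → NmD Ω I} {i m : I}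

private theorem h9_exists_least (m : I) : ∃ j : I, ∀ i, j ≤ i :=
  ⟨wellFounded_lt.min univ ⟨m, mem_univ m⟩, fun i =>
    not_lt.1 (wellFounded_lt.not_lt_min univ (mem_univ i))⟩

omit [WellFoundedLT I] in
private theorem h9_bel {pn : ℕ → Cnd Ω I} {s : Cnd Ω I} (hs : Semi α pn s) {j : I}
    (hj : ∀ i, j ≤ i) : Bel pn s j (res s j) := by
  have hno : ∀ i, ¬ i < j := fun i => not_lt.2 (hj i)
  have hG : ∀ i x y, BG pn s j (res s j) i x y →
      i ∈ s.S ∧ x ∈ s.Y ∧ x ∉ old pn ∧ y = s.h i x := by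
    rintro i x y ⟨hi, hx, h | h⟩
    · exact (hno i h.1).elim
    · exact ⟨hi, h.2.1, hx, h.2.2⟩
  have hfr : Free (BG pn s j (res s j)) := Free.mono hG hs.frL
  have hold : ∀ g x y, Acts (BG pn s j (res s j)) g x y → x ∈ old pn → g = 1 ∧ y = x := by
    intro g x y h
    induction h with
    | one x => exact fun _ => ⟨rfl, rfl⟩
    | fwd h1 h2 ih =>
      intro hx
      obtain ⟨_, rfl⟩ := ih hx
      exact ((hG _ _ _ h2).2.2.1 hx).elim
    | bwd h1 h2 ih =>
      intro hx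
      obtain ⟨_, rfl⟩ := ih hx
      obtain ⟨h3, h4, h5, h6⟩ := hG _ _ _ h2
      rw [h6] at hx
      exact (hs.LL _ h3 _ h4 h5 hx).elim
  have hself := Cp.refl' hs.basic.gr
  refine ⟨⟨hself.sub, hself.ring, hself.cut, hself.rk⟩, fun i _ h => (hno i h).elim,
    fun i _ h => (hno i h).elim, fun i _ h => (hno i h).elim, hfr, ?_⟩
  intro K hK
  have hfin : (K \ old pn).Finite := hs.fin K hK
  have hfin2 : ({1} ∪ ⋃ x ∈ K \ old pn, ⋃ y ∈ K \ old pn,
      {g | Acts (BG pn s j (res s j)) g x y} : Set (FreeGroup I)).Finite := by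
    refine (finite_singleton 1).union (hfin.biUnion fun x _ => hfin.biUnion fun y _ => ?_)
    refine Set.Subsingleton.finite ?_
    intro g hg g' hg'
    have h1 : Acts (BG pn s j (res s j)) (g'⁻¹ * g) x x := Acts.trans hg (Acts.inv hg')
    have h2 := hfr _ _ h1
    exact (inv_mul_eq_one.1 h2).symm
  refine hfin2.subset ?_
  rintro g ⟨x, hx, y, hy, hg⟩
  by_cases hxo : x ∈ old pn
  · exact Or.inl (hold g x y hg hxo).1
  · refine Or.inr ?_
    have hyo : y ∉ old pn := by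
      intro hyo
      obtain ⟨_, h2⟩ := hold _ _ _ (Acts.inv hg) hyo
      exact hxo (h2 ▸ hyo)
    simp only [mem_iUnion]
    exact ⟨x, ⟨hx, hxo⟩, y, ⟨hy, hyo⟩, hg⟩

/-- The extension lemma implies the limit lemma. -/
theorem lim_of_ext [Uncountable Ω] (hα : Ind α) (hE : ExtSpec α b m) :
    LimSpec α (V α b m) := by
  intro pn xn hpn hle hxn hst
  have hb : ∀ n, Basic α (pn n) := fun n => V.basic (hpn n)
  obtain ⟨s, hs, x, hxs, hxo, hacc, hrk⟩ := lim_semi hα hb hle hxn hst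
  obtain ⟨j, hj⟩ := h9_exists_least m
  have hletters : ∀ l ∈ s.S, l < m := by
    intro l hl
    rw [hs.S, mem_iUnion] at hl
    obtain ⟨n, hn⟩ := hl
    exact V.letters (hpn n) l hn
  have hr0 : res s j ∈ V α b j := by
    rw [mem_V]
    refine ⟨Basic.res hs.basic j, fun l hl => ?_⟩
    exact (not_lt.2 (hj l) hl.2).elim
  obtain ⟨q, hq, hBq, -, -⟩ := hE pn s (fun n => ⟨m, hpn n⟩) hle hs j (hj m) (res s j) hr0
    (h9_bel hs hj) ∅ hs.basic.gr.emp
  have hbq : Basic α q := V.basic hq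
  refine ⟨q, hq, fun n => ?_, x, hBq.cp.sub hxs, fun n hn => hxo (mem_iUnion.2 ⟨n, hn⟩), ?_, ?_⟩
  · have h1 := bel_le hs hb hle hbq hBq n
    rwa [res_eq_self (hb n) (V.letters (hpn n))] at h1
  · intro K hK hxK
    have h1 : K ∩ s.Y ∈ s.R := (hBq.cp.ring _).2 ⟨hBq.cp.cut K hK, inter_subset_right⟩
    obtain ⟨N, hN⟩ := hacc _ h1 ⟨hxK, hxs⟩
    exact ⟨N, fun n hn => (hN n hn).1⟩
  · intro w β hw
    obtain ⟨y, hy, hyβ⟩ := hrk w β hw
    have hys : y ∈ s.Y := by
      refine (Acts.stay (A := s.Y) ?_ hy).1 hxs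
      rintro i u v ⟨hi, hu, rfl⟩
      exact ⟨fun _ => (hs.basic.ce i hi).maps u hu, fun _ => hu⟩
    refine ⟨y, Acts.mono ?_ hy, ?_⟩
    · rintro i u v ⟨hi, hu, rfl⟩
      exact ⟨hBq.S i hi (hletters i hi), hBq.cp.sub hu, (hBq.h i hi (hletters i hi) u hu).symm⟩
    · rw [hBq.cp.rk y hys]
      exact hyβ

end

end Pool.Agent.Helper33.QB
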