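import Pool.Agent.Helper33.QB.Gd7
import Pool.Agent.Helper90.QB.Universal

/-!
# Project QB, MD8: every closed unbounded set of the model is the range of one of the maps
-/

set_option autoImplicit false

namespace Pool.Agent.Helper33.QB

open Set Pool.Agent.Helper33.HMG Pool.Agent.Helper32.HB

variable {Ω : Type} [LinearOrder Ω] [WellFoundedLT Ω] {α : Ordinal.{0}} [Fact (Ind α)]
  {b : Ordinal.{0} → NmD Ω Ordinal.{0}} {R : Type}
  {W : R → (ℕ → Nm (CP Ω α b)) → CP Ω α b → Nm (CP Ω α b) → Prop} {a0 : Ω} {g : Gen W}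
  {τ : Nm (CP Ω α b)} {E : Set (OM g)}

theorem Gd.main (hg : Gd a0 g) (hτ : τ ∈ g.N)
    (hE : ∀ x, x ∈ E ↔ ∃ k, fmem (ck x.1) τ (g.pc k)) (hc : ¬ CtbIn (ltM g) (S2M g) E)
    (hcl : ∀ x, x ∉ E → ∃ K ∈ RM g, x ∈ K ∧ K ∩ E = ∅) :
    ∃ (i : Ordinal.{0}) (k : ℕ), (hN i : Nm (CP Ω α b)) ∈ g.N ∧ i ∈ (g.pc k).1.S ∧
      ∀ q ≤ g.pc k, ∀ y ∈ q.1.Y, (y ∈ q.1.h i '' q.1.Y → fmem (ck y) τ q) ∧
        (y ∉ q.1.h i '' q.1.Y → ∀ q' ≤ q, ¬ fmem (ck y) τ q') := by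
  have := hg.unc
  have hα : Ind α := Fact.out
  obtain ⟨k1, h1⟩ := hg.unb hτ hE hc
  obtain ⟨k2, h2⟩ := hg.clo hτ hE hcl
  obtain ⟨l, X, hX, i, hi, rfl, hl⟩ := hg.get (Sum.inl Rq0.main) [τ] (by simp [hτ])
    (k := max k1 k2) (by
      intro l hl
      obtain ⟨q, hq, i, hi, h⟩ := universal (inn := fun q x => fmem (ck x) τ q)
        (p0 := g.pc (max k1 k2)) hα hg.book (fun p q x hqp h => fmem_mono h hqp)
        (fun q hq => h2 q (hq.trans (g.pc_le (le_max_right _ _))))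
        (by
          intro q hq
          obtain ⟨q', hq', y, hy, hy'⟩ := h1 q (hq.trans (g.pc_le (le_max_left _ _)))
          obtain ⟨q'', hq'', hy''⟩ := cp_point hα q' y
          exact ⟨q'', hq''.trans hq', y, hy'', hy, fmem_mono hy' hq''⟩)
        (g.pc l) (g.pc_le hl)
      exact ⟨q, hq, hN i, i, hi, rfl, h⟩)
  exact ⟨i, l, hX, hi, hl⟩

end Pool.Agent.Helper33.QB
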