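import Pool.Agent.Helper33.QB.Gd2

/-!
# Project QB, MD9: the maps of the model
-/

set_option autoImplicit false

namespace Pool.Agent.Helper33.QB

open Set Pool.Agent.Helper33.HMG Pool.Agent.Helper32.HB

variable {Ω : Type} [LinearOrder Ω] [WellFoundedLT Ω] {α : Ordinal.{0}} [Fact (Ind α)]
  {b : Ordinal.{0} → NmD Ω Ordinal.{0}} {R : Type}
  {W : R → (ℕ → Nm (CP Ω α b)) → CP Ω α b → Nm (CP Ω α b) → Prop} {a0 : Ω} {g : Gen W}
  {τ : Nm (CP Ω α b)} {E : Set (OM g)} {i : Ordinal.{0}} {k : ℕ}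

omit [LinearOrder Ω] [WellFoundedLT Ω] [Fact (Ind α)] in
/-- The maps do not change below a condition. -/
theorem h9g_h {p q : CP Ω α b} (hpq : q ≤ p) {i : Ordinal.{0}} (hi : i ∈ p.1.S) {x : Ω}
    (hx : x ∈ p.1.Y) : q.1.h i x = p.1.h i x :=
  (CP.le_def.1 hpq).h i hi x hx

omit [LinearOrder Ω] [WellFoundedLT Ω] [Fact (Ind α)] in
theorem h9g_S {p q : CP Ω α b} (hpq : q ≤ p) {i : Ordinal.{0}} (hi : i ∈ p.1.S) :
    i ∈ q.1.S :=
  (CP.le_def.1 hpq).S hi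

omit [LinearOrder Ω] [WellFoundedLT Ω] [Fact (Ind α)] in
theorem h9g_Y {p q : CP Ω α b} (hpq : q ≤ p) {x : Ω} (hx : x ∈ p.1.Y) :
    x ∈ q.1.Y :=
  (CP.le_def.1 hpq).cp.sub hx

/-- The name of the map contains the pair. -/
theorem h9g_fmem {p : CP Ω α b} {i : Ordinal.{0}} (hi : i ∈ p.1.S) {x : Ω} (hx : x ∈ p.1.Y) :
    fmem (opN (ck x) (ck (p.1.h i x))) (hN i) p := by
  refine fmem_relN.2 fun q hq => ⟨q, le_rfl, p, ⟨hi, hx, rfl⟩, hq⟩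

/-- Two compatible conditions agree on the maps. -/
theorem h9g_eq {p q : CP Ω α b} (hqp : q ≤ p) {i : Ordinal.{0}} (hi : i ∈ p.1.S) {x y : Ω}
    (hx : x ∈ p.1.Y) (h : fmem (opN (ck x) (ck y)) (hN i) q) : y = p.1.h i x := by
  obtain ⟨s, hs, p', ⟨h1, h2, h3⟩, hs'⟩ := fmem_relN.1 h q le_rfl
  rw [h3, ← h9g_h hs' h1 h2, h9g_h (hs.trans hqp) hi hx]

theorem Gd.map (hg : Gd a0 g) (hi : (hN i : Nm (CP Ω α b)) ∈ g.N) (hk : i ∈ (g.pc k).1.S) :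
    ∃ h : OM g → OM g, (fun x y => y = h x) ∈ S2M g ∧
      ∀ x, ∃ l ≥ k, x.1 ∈ (g.pc l).1.Y ∧ (h x).1 = (g.pc l).1.h i x.1 := by
  have key : ∀ x : OM g, ∃ y : OM g, ∃ l ≥ k, x.1 ∈ (g.pc l).1.Y ∧
      y.1 = (g.pc l).1.h i x.1 := by
    intro x
    obtain ⟨l0, hl0⟩ := hg.memY x
    have hx : x.1 ∈ (g.pc (max k l0)).1.Y := h9g_Y (g.pc_le (le_max_right _ _)) hl0
    have hi' : i ∈ (g.pc (max k l0)).1.S := h9g_S (g.pc_le (le_max_left _ _)) hk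
    obtain ⟨l, X, hX, y, rfl, hy⟩ := hg.get (Sum.inl Rq0.img) [hN i, ck x.1]
      (by simp [hi, x.2]) (k := max k l0) (by
        intro l hl
        exact ⟨g.pc l, le_rfl, _, _, rfl, h9g_fmem (h9g_S (g.pc_le hl) hi')
          (h9g_Y (g.pc_le hl) hx)⟩)
    refine ⟨⟨y, hX⟩, max k l0, le_max_left _ _, hx, ?_⟩
    exact h9g_eq (q := g.pc (max l (max k l0))) (g.pc_le (le_max_right _ _)) hi' hx
      (fmem_mono hy (g.pc_le (le_max_left _ _)))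
  choose h hh using key
  refine ⟨h, ⟨hN i, hi, fun x y => ?_⟩, hh⟩
  obtain ⟨l, hl, h1, h2⟩ := hh x
  have hi' : i ∈ (g.pc l).1.S := h9g_S (g.pc_le hl) hk
  constructor
  · rintro rfl
    refine ⟨l, ?_⟩
    rw [h2]
    exact h9g_fmem hi' h1
  · rintro ⟨k', hk'⟩
    apply Subtype.ext
    rw [h2]
    exact h9g_eq (q := g.pc (max k' l)) (g.pc_le (le_max_right _ _)) hi' h1
      (fmem_mono hk' (g.pc_le (le_max_left _ _)))

theorem Gd.bij (hg : Gd a0 g) (hτ : τ ∈ g.N) (hE : ∀ x, x ∈ E ↔ ∃ k, fmem (ck x.1) τ (g.pc k))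
    (hi : (hN i : Nm (CP Ω α b)) ∈ g.N) (hk : i ∈ (g.pc k).1.S)
    (hs : ∀ q ≤ g.pc k, ∀ y ∈ q.1.Y, (y ∈ q.1.h i '' q.1.Y → fmem (ck y) τ q) ∧
        (y ∉ q.1.h i '' q.1.Y → ∀ q' ≤ q, ¬ fmem (ck y) τ q'))
    {h : OM g → OM g} (hh : ∀ x, ∃ l ≥ k, x.1 ∈ (g.pc l).1.Y ∧ (h x).1 = (g.pc l).1.h i x.1) :
    BijOn h univ E := by
  refine ⟨?_, ?_, ?_⟩
  · intro x _
    obtain ⟨l, hl, h1, h2⟩ := hh x
    have hi' : i ∈ (g.pc l).1.S := h9g_S (g.pc_le hl) hk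
    rw [hE]
    refine ⟨l, ?_⟩
    rw [h2]
    exact (hs _ (g.pc_le hl) _ (((g.pc l).basic.ce i hi').maps _ h1)).1 ⟨x.1, h1, rfl⟩
  · intro x _ x' _ hxx
    obtain ⟨l, hl, h1, h2⟩ := hh x
    obtain ⟨l', hl', h1', h2'⟩ := hh x'
    have hi1 : i ∈ (g.pc l).1.S := h9g_S (g.pc_le hl) hk
    have hi2 : i ∈ (g.pc l').1.S := h9g_S (g.pc_le hl') hk
    have hi3 : i ∈ (g.pc (max l l')).1.S := h9g_S (g.pc_le (le_max_left _ _)) hi1
    apply Subtype.ext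
    refine ((g.pc (max l l')).basic.ce i hi3).inj (h9g_Y (g.pc_le (le_max_left _ _)) h1)
      (h9g_Y (g.pc_le (le_max_right _ _)) h1') ?_
    rw [h9g_h (g.pc_le (le_max_left _ _)) hi1 h1, h9g_h (g.pc_le (le_max_right _ _)) hi2 h1',
      ← h2, ← h2', hxx]
  · intro y hy
    obtain ⟨k', hk'⟩ := (hE y).1 hy
    obtain ⟨l, hl⟩ := hg.memY y
    set L := max k (max k' l) with hL
    have hkL : k ≤ L := le_max_left _ _
    have hk'L : k' ≤ L := (le_max_left _ _).trans (le_max_right _ _)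
    have hlL : l ≤ L := (le_max_right _ _).trans (le_max_right _ _)
    have hyL : y.1 ∈ (g.pc L).1.Y := h9g_Y (g.pc_le hlL) hl
    have hiL : i ∈ (g.pc L).1.S := h9g_S (g.pc_le hkL) hk
    have hyi : y.1 ∈ (g.pc L).1.h i '' (g.pc L).1.Y := by
      by_contra hc
      exact (hs _ (g.pc_le hkL) _ hyL).2 hc _ le_rfl (fmem_mono hk' (g.pc_le hk'L))
    obtain ⟨x, hx, hxy⟩ := hyi
    obtain ⟨m, X, hX, x', rfl, hx'⟩ := hg.get (Sum.inl Rq0.pre) [hN i, ck y.1]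
      (by simp [hi, y.2]) (k := L) (by
        intro l hl
        refine ⟨g.pc l, le_rfl, ck x, x, rfl, ?_⟩
        have h1 := h9g_fmem (h9g_S (g.pc_le hl) hiL) (h9g_Y (g.pc_le hl) hx)
        rw [h9g_h (g.pc_le hl) hiL hx, hxy] at h1
        exact h1)
    have hxx : x' = x := by
      change fmem (opN (ck x') (ck y.1)) (hN i) (g.pc m) at hx'
      obtain ⟨s, hs, p', ⟨h1, h2, h3⟩, hs'⟩ := fmem_relN.1 hx' (g.pc (max m L))
        (g.pc_le (le_max_left _ _))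
      have hsL : s ≤ g.pc L := hs.trans (g.pc_le (le_max_right _ _))
      refine (s.basic.ce i (h9g_S hsL hiL)).inj (h9g_Y hs' h2) (h9g_Y hsL hx) ?_
      rw [h9g_h hs' h1 h2, ← h3, h9g_h hsL hiL hx, hxy]
    subst hxx
    refine ⟨⟨x', hX⟩, mem_univ _, ?_⟩
    obtain ⟨n, hn, h1, h2⟩ := hh ⟨x', hX⟩
    apply Subtype.ext
    rw [h2, ← hxy]
    have hin : i ∈ (g.pc n).1.S := h9g_S (g.pc_le hn) hk
    have e1 := h9g_h (g.pc_le (le_max_left n L)) hin h1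
    have e2 := h9g_h (g.pc_le (le_max_right n L)) hiL hx
    exact e1.symm.trans e2

end Pool.Agent.Helper33.QB
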